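import Mathlib

/-!
# Homomorphisms from fundamental groups of homeomorphic spaces
-/

set_option autoImplicit false

namespace Pool.Agent.K3h20.LCT

theorem pit' (X Y H : Type) [TopologicalSpace X] [TopologicalSpace Y] [Group H]
    (e : X ≃ₜ Y) (h : ∀ (x : X) (φ : FundamentalGroup X x →* H) (γ : FundamentalGroup X x), φ γ = 1)
    (y : Y) (φ : FundamentalGroup Y y →* H) (γ : FundamentalGroup Y y) : φ γ = 1 := by
  have hx : (⟨e, e.continuous⟩ : C(X, Y)) (e.symm y) = y := e.apply_symm_apply y
  let γ' : FundamentalGroup X (e.symm y) :=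
    FundamentalGroup.mapOfEq ⟨e.symm, e.symm.continuous⟩ rfl γ
  have key : FundamentalGroup.mapOfEq (⟨e, e.continuous⟩ : C(X, Y)) hx γ' = γ := by
    rw [FundamentalGroup.mapOfEq_apply]
    show Path.Homotopic.Quotient.cast (Path.Homotopic.Quotient.map
      (FundamentalGroup.mapOfEq (⟨e.symm, e.symm.continuous⟩ : C(Y, X)) rfl γ) _) _ _ = γ
    rw [FundamentalGroup.mapOfEq_apply]
    induction γ using Quotient.inductionOn with
    | _ p =>
      apply congrArg (fun q => (⟦q⟧ : Path.Homotopic.Quotient y y))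
      ext t
      exact e.apply_symm_apply (p t)
  have h1 := h (e.symm y) (φ.comp (FundamentalGroup.mapOfEq (⟨e, e.continuous⟩ : C(X, Y)) hx)) γ'
  rw [MonoidHom.comp_apply, key] at h1
  exact h1

end Pool.Agent.K3h20.LCT
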