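import Pool.Agent.K3h88.LCT.Stm
import Pool.Agent.K3h20.LCT.Pit

/-!
# Bricks CON and PIT: connected realization; fundamental groups of homeomorphic spaces
-/

set_option autoImplicit false

namespace Pool.Agent.K3h20.LCT

open Finset Pool.Agent.K3h88.LCM Pool.Agent.K3h88.LCT

theorem pit : StmPit := by
  intro X Y H _ _ _ e h y φ γ
  exact pit' X Y H e h y φ γ

theorem closed_supp {n : ℕ} (S : Finset (Finset (Fin n))) (t : Finset (Fin n)) :
    IsClosed {x : Rz S | ∀ v, v ∉ t → x.1 v = 0} := by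
  have : {x : Rz S | ∀ v, v ∉ t → x.1 v = 0} = ⋂ v, ⋂ (_ : v ∉ t), {x : Rz S | x.1 v = 0} := by
    ext x
    simp only [Set.mem_ofPred_eq, Set.mem_iInter]
  rw [this]
  refine isClosed_iInter fun v => isClosed_iInter fun _ => ?_
  have hc : Continuous fun x : Rz S => x.1 v := (continuous_apply v).comp continuous_subtype_val
  exact isClosed_eq hc continuous_const

theorem closed_part {n : ℕ} (S : Finset (Finset (Fin n))) (P : Finset (Fin n) → Prop) :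
    IsClosed {x : Rz S | ∃ t ∈ S, P t ∧ ∀ v, v ∉ t → x.1 v = 0} := by
  classical
  have : {x : Rz S | ∃ t ∈ S, P t ∧ ∀ v, v ∉ t → x.1 v = 0} =
      ⋃ t ∈ (S.filter P : Finset (Finset (Fin n))), {x : Rz S | ∀ v, v ∉ t → x.1 v = 0} := by
    ext x
    simp only [Set.mem_ofPred_eq, Set.mem_iUnion, mem_filter, exists_prop, and_assoc]
  rw [this]
  exact isClosed_biUnion_finset fun t _ => closed_supp S t

theorem con : StmCon := by
  classical
  intro n S hne hpre s0 hs0 t0 ht0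
  by_contra hcon
  have pt : ∀ t ∈ S, ∃ x : Rz S, ∀ v, v ∉ t → x.1 v = 0 := by
    intro t ht
    obtain ⟨a, ha⟩ := hne t ht
    have h1 : ∀ v, v ∉ t → (Pi.single a (1 : ℝ) : Fin n → ℝ) v = 0 := by
      intro v hv
      rw [Pi.single_apply, if_neg]
      rintro rfl
      exact hv ha
    refine ⟨⟨Pi.single a 1, ⟨fun v => ?_, t, ht, h1, ?_⟩⟩, h1⟩
    · rw [Pi.single_apply]
      split_ifs <;> norm_num
    · rw [Finset.sum_pi_single' a (1 : ℝ) t, if_pos ha]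
  have hp := isPreconnected_closed_iff.1 hpre.isPreconnected_univ
    {x : Rz S | ∃ t ∈ S, Relation.ReflTransGen
      (fun s t => s ∈ S ∧ t ∈ S ∧ (s ∩ t).Nonempty) s0 t ∧ ∀ v, v ∉ t → x.1 v = 0}
    {x : Rz S | ∃ t ∈ S, ¬ Relation.ReflTransGen
      (fun s t => s ∈ S ∧ t ∈ S ∧ (s ∩ t).Nonempty) s0 t ∧ ∀ v, v ∉ t → x.1 v = 0}
    (closed_part S _) (closed_part S _) ?_ ?_ ?_
  · obtain ⟨x, -, ⟨t, ht, h1, h2⟩, t', ht', h3, h4⟩ := hp
    apply h3
    obtain ⟨s, hs, h5, h6⟩ := x.2.2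
    have h7 : ∑ v ∈ s, x.1 v ≠ 0 := by rw [h6]; exact one_ne_zero
    obtain ⟨v, hv, h8⟩ := Finset.exists_ne_zero_of_sum_ne_zero h7
    refine h1.tail ⟨ht, ht', v, ?_⟩
    rw [mem_inter]
    exact ⟨by_contra fun h => h8 (h2 v h), by_contra fun h => h8 (h4 v h)⟩
  · intro x _
    obtain ⟨s, hs, h5, h6⟩ := x.2.2
    by_cases h : Relation.ReflTransGen (fun s t => s ∈ S ∧ t ∈ S ∧ (s ∩ t).Nonempty) s0 s
    · exact Or.inl ⟨s, hs, h, h5⟩
    · exact Or.inr ⟨s, hs, h, h5⟩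
  · obtain ⟨x, hx⟩ := pt s0 hs0
    exact ⟨x, Set.mem_univ _, s0, hs0, Relation.ReflTransGen.refl, hx⟩
  · obtain ⟨x, hx⟩ := pt t0 ht0
    exact ⟨x, Set.mem_univ _, t0, ht0, hcon, hx⟩

end Pool.Agent.K3h20.LCT
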